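import Pool.Agent.Y157.PC.Stm

/-!
# The homomorphism to `Gal(L/R)` given by a section (project PC, job PC-PSI)

(helper686, for helper157.)
-/

set_option autoImplicit false
set_option linter.all false

open Polynomial

namespace Pool.Agent.Y686.PC

open Pool.Agent.Y157.PC

/-- continuity of a homomorphism to `Gal(M/F)` (as `Pool.Agent.Y157.PS.cont_fix`) -/
lemma cont_fix' {k κ F M : Type} [Field k] [Field κ] [Algebra k κ] [Field F] [Field M]
    [Algebra F M] [Algebra.IsAlgebraic F M] (S : (κ ≃ₐ[k] κ) →* (M ≃ₐ[F] M)) (hS : Continuous S)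
    (w : M) : ∃ E : IntermediateField k κ, FiniteDimensional k E ∧
      ∀ σ ∈ E.fixingSubgroup, S σ w = w := by
  have h1 : {e : M ≃ₐ[F] M | e w = w} ∈ nhds (1 : M ≃ₐ[F] M) := by
    rw [krullTopology_mem_nhds_one_iff]
    refine ⟨IntermediateField.adjoin F {w}, ?_, ?_⟩
    · exact IntermediateField.adjoin.finiteDimensional (Algebra.IsIntegral.isIntegral _)
    · intro e he
      exact (IntermediateField.mem_fixingSubgroup_iff _ _).1 he _
        (IntermediateField.mem_adjoin_simple_self F _)
  have h2 := hS.tendsto 1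
  rw [map_one] at h2
  have h3 := h2 h1
  rw [Filter.mem_map, krullTopology_mem_nhds_one_iff] at h3
  obtain ⟨E, hE, hE'⟩ := h3
  exact ⟨E, hE, fun σ hσ => hE' hσ⟩

section

variable {R Ω : Type} [Field R] [Field Ω] [Algebra R Ω] (F : IntermediateField R Ω)
  (N : IntermediateField F Ω) (L : IntermediateField R Ω) (h : ∀ z ∈ L, z ∈ N)

/-- the embedding of `L` in `Ω` given by an automorphism of `N` -/
noncomputable def emb (t : N ≃ₐ[F] N) : L →ₐ[R] Ω where
  toFun z := (t ⟨z, h z z.2⟩ : Ω)
  map_one' := by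
    have : (⟨((1 : L) : Ω), h _ (1 : L).2⟩ : N) = 1 := rfl
    rw [this, map_one]; rfl
  map_mul' a b := by
    have : (⟨((a * b : L) : Ω), h _ (a * b : L).2⟩ : N) = ⟨a, h a a.2⟩ * ⟨b, h b b.2⟩ := rfl
    rw [this, map_mul]; rfl
  map_zero' := by
    have : (⟨((0 : L) : Ω), h _ (0 : L).2⟩ : N) = 0 := rfl
    rw [this, map_zero]; rfl
  map_add' a b := by
    have : (⟨((a + b : L) : Ω), h _ (a + b : L).2⟩ : N) = ⟨a, h a a.2⟩ + ⟨b, h b b.2⟩ := rfl
    rw [this, map_add]; rfl
  commutes' r := by
    have : (⟨((algebraMap R L r : L) : Ω), h _ (algebraMap R L r : L).2⟩ : N) =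
        algebraMap F N (algebraMap R F r) := rfl
    show ((t ⟨((algebraMap R L r : L) : Ω), h _ (algebraMap R L r : L).2⟩ : N) : Ω) = _
    rw [this, AlgEquiv.commutes]; rfl

lemma emb_mem [Normal R L] (t : N ≃ₐ[F] N) (z : L) : (t ⟨z, h z z.2⟩ : Ω) ∈ L := by
  have h1 := (emb F N L h t).fieldRange_of_normal
  have h2 : emb F N L h t z ∈ (emb F N L h t).fieldRange := ⟨z, rfl⟩
  rw [h1] at h2
  exact h2

/-- restriction of the automorphisms of `N` to `L` -/
noncomputable def resL [Normal R L] (t : N ≃ₐ[F] N) : L →ₐ[R] L where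
  toFun z := ⟨t ⟨z, h z z.2⟩, emb_mem F N L h t z⟩
  map_one' := Subtype.ext ((emb F N L h t).map_one')
  map_mul' a b := Subtype.ext ((emb F N L h t).map_mul' a b)
  map_zero' := Subtype.ext ((emb F N L h t).map_zero')
  map_add' a b := Subtype.ext ((emb F N L h t).map_add' a b)
  commutes' r := Subtype.ext ((emb F N L h t).commutes' r)

lemma resL_mul [Normal R L] (t u : N ≃ₐ[F] N) (z : L) :
    resL F N L h (t * u) z = resL F N L h t (resL F N L h u z) := rfl

lemma resL_one [Normal R L] (z : L) : resL F N L h 1 z = z := rfl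

/-- the homomorphism `Gal(N/F) → Gal(L/R)` -/
noncomputable def rho [Normal R L] : (N ≃ₐ[F] N) →* (L ≃ₐ[R] L) where
  toFun t := AlgEquiv.ofAlgHom (resL F N L h t) (resL F N L h t⁻¹)
    (by
      ext z
      show ((resL F N L h t (resL F N L h t⁻¹ z) : L) : Ω) = z
      rw [← resL_mul, mul_inv_cancel, resL_one])
    (by
      ext z
      show ((resL F N L h t⁻¹ (resL F N L h t z) : L) : Ω) = z
      rw [← resL_mul, inv_mul_cancel, resL_one])
  map_one' := by ext z; rfl
  map_mul' t u := by ext z; rfl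

end

theorem psi : S_PSI := by
  intro R Ω _ _ _ _ _ F N S hS L hL hG hLN
  haveI : Normal R L := hG.to_normal
  haveI : Algebra.IsAlgebraic R Ω := IsAlgClosure.isAlgebraic
  haveI : Algebra.IsAlgebraic F Ω := Algebra.IsAlgebraic.tower_top (K := R) F
  haveI : Algebra.IsAlgebraic F N := inferInstance
  refine ⟨(rho F N L hLN).comp S, ?_, ?_⟩
  · let b := Module.finBasis R L
    choose E hE hE' using fun j => cont_fix' S hS ⟨(b j : Ω), hLN _ (b j).2⟩
    refine ⟨⨆ j, E j, ?_, ?_⟩
    · haveI := hE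
      exact IntermediateField.finiteDimensional_iSup_of_finite
    · intro σ hσ
      have h1 : ∀ j, rho F N L hLN (S σ) (b j) = b j := by
        intro j
        have h2 : σ ∈ (E j).fixingSubgroup :=
          IntermediateField.fixingSubgroup_antitone (le_iSup E j) hσ
        have h3 := hE' j σ h2
        apply Subtype.ext
        show ((S σ ⟨(b j : Ω), hLN _ (b j).2⟩ : N) : Ω) = b j
        rw [h3]
      show rho F N L hLN (S σ) = 1
      have h4 : (rho F N L hLN (S σ)).toLinearMap = LinearMap.id := b.ext (fun j => h1 j)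
      ext z
      have h5 := LinearMap.congr_fun h4 z
      exact congrArg Subtype.val h5
  · intro σ z w hw
    have h1 : w = ⟨z, hLN z z.2⟩ := Subtype.ext hw
    rw [h1]
    rfl

end Pool.Agent.Y686.PC
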